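import Pool.Agent.Helper58.ETL.Defs

/-!
# ETL-C1: the counting step (second moment over a finite field)
-/

set_option autoImplicit false

namespace Pool.Agent.Helper58.ETL

/-- The number of points on a line `u x + v y = 1`, `u ≠ 0`. -/
theorem card_line67 {K : Type*} [Field K] [Fintype K] [DecidableEq K] (p : K × K)
    (hp : p.1 ≠ 0) :
    (Finset.univ.filter (fun q : K × K => p.1 * q.1 + p.2 * q.2 = 1)).card = Fintype.card K := by
  rw [← Finset.card_univ (α := K)]
  symm
  apply Finset.card_bij (fun (y : K) _ => ((1 - p.2 * y) / p.1, y))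
  · intro y _
    simp only [Finset.mem_filter, Finset.mem_univ, true_and]
    field_simp
    ring
  · intro y _ y' _ h
    exact (Prod.ext_iff.1 h).2
  · intro q hq
    simp only [Finset.mem_filter, Finset.mem_univ, true_and] at hq
    refine ⟨q.2, Finset.mem_univ _, ?_⟩
    ext
    · simp only
      field_simp
      linear_combination -hq
    · rfl

/-- Two different lines meet in at most one point. -/
theorem card_inter67 {K : Type*} [Field K] [Fintype K] [DecidableEq K] (p p' : K × K)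
    (hpp : p ≠ p') :
    (Finset.univ.filter (fun q : K × K => p.1 * q.1 + p.2 * q.2 = 1 ∧
      p'.1 * q.1 + p'.2 * q.2 = 1)).card ≤ 1 := by
  rw [Finset.card_le_one]
  intro q hq r hr
  simp only [Finset.mem_filter, Finset.mem_univ, true_and] at hq hr
  obtain ⟨h1, h2⟩ := hq
  obtain ⟨h3, h4⟩ := hr
  by_cases hD : q.1 * (q.2 - r.2) - q.2 * (q.1 - r.1) = 0
  · ext
    · linear_combination (-(q.1 - r.1)) * h1 + q.1 * (h1 - h3) - p.2 * hD
    · linear_combination (-(q.2 - r.2)) * h1 + q.2 * (h1 - h3) + p.1 * hD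
  · exfalso
    apply hpp
    have e1 : (p.1 - p'.1) * (q.1 * (q.2 - r.2) - q.2 * (q.1 - r.1)) = 0 := by
      linear_combination (q.2 - r.2) * (h1 - h2) - q.2 * ((h1 - h2) - (h3 - h4))
    have e2 : (p.2 - p'.2) * (q.1 * (q.2 - r.2) - q.2 * (q.1 - r.1)) = 0 := by
      linear_combination (-(q.1 - r.1)) * (h1 - h2) + q.1 * ((h1 - h2) - (h3 - h4))
    ext
    · exact sub_eq_zero.1 ((mul_eq_zero.1 e1).resolve_right hD)
    · exact sub_eq_zero.1 ((mul_eq_zero.1 e2).resolve_right hD)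

/-- ETL-C1 (counting). -/
theorem counting {K : Type*} [Field K] [Fintype K] [DecidableEq K] (A B : Finset K)
    (hA : (0 : K) ∉ A) (hB : (0 : K) ∉ B)
    (h : (Fintype.card K) ^ 3 + (A.card * B.card) * Fintype.card K < (A.card * B.card) ^ 2) :
    ∃ a ∈ A, ∃ a' ∈ A, ∃ b ∈ B, ∃ b' ∈ B, a' / a + b' / b = 1 := by
  classical
  by_contra hno
  push Not at hno
  set Q := Fintype.card K with hQ
  set S : Finset (K × K) := A ×ˢ B with hS
  set n := A.card * B.card with hn
  have hSn : S.card = n := by rw [hS, Finset.card_product]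
  set T : Finset (K × K) := S.image (fun p => (p.1⁻¹, p.2⁻¹)) with hT
  have hTn : T.card = n := by
    rw [hT, Finset.card_image_of_injective, hSn]
    intro p q hpq
    simp only [Prod.mk.injEq, inv_inj] at hpq
    exact Prod.ext hpq.1 hpq.2
  set g : K × K → ℕ := fun q => (S.filter (fun p => p.1 * q.1 + p.2 * q.2 = 1)).card with hg
  have hgT : ∀ q ∈ T, g q = 0 := by
    intro q hq
    rw [hT, Finset.mem_image] at hq
    obtain ⟨p, hp, rfl⟩ := hq
    rw [hS, Finset.mem_product] at hp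
    simp only [hg, Finset.card_eq_zero, Finset.filter_eq_empty_iff]
    intro r hr
    rw [hS, Finset.mem_product] at hr
    have := hno p.1 hp.1 r.1 hr.1 p.2 hp.2 r.2 hr.2
    simpa [div_eq_mul_inv] using this
  have hne : ∀ p ∈ S, p.1 ≠ 0 := by
    intro p hp h0
    rw [hS, Finset.mem_product] at hp
    exact hA (h0 ▸ hp.1)
  have hgs : ∀ q, g q = ∑ p ∈ S, if p.1 * q.1 + p.2 * q.2 = 1 then 1 else 0 := by
    intro q
    simp only [hg, Finset.card_filter]
  have hsum : ∑ q, g q = n * Q := by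
    simp only [hgs]
    rw [Finset.sum_comm]
    have : ∀ p ∈ S, (∑ q : K × K, if p.1 * q.1 + p.2 * q.2 = 1 then 1 else 0) = Q := by
      intro p hp
      rw [← Finset.card_filter]
      exact card_line67 p (hne p hp)
    rw [Finset.sum_congr rfl this, Finset.sum_const, hSn, smul_eq_mul]
  have hsq : ∑ q, (g q) ^ 2 ≤ n * Q + n ^ 2 := by
    have e1 : ∀ q, (g q) ^ 2 = ∑ p ∈ S, ∑ p' ∈ S,
        if (p.1 * q.1 + p.2 * q.2 = 1 ∧ p'.1 * q.1 + p'.2 * q.2 = 1) then 1 else 0 := by
      intro q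
      rw [sq, hgs, Finset.sum_mul_sum]
      refine Finset.sum_congr rfl fun p _ => Finset.sum_congr rfl fun p' _ => ?_
      by_cases h1 : p.1 * q.1 + p.2 * q.2 = 1 <;>
        by_cases h2 : p'.1 * q.1 + p'.2 * q.2 = 1 <;> simp [h1, h2]
    simp only [e1]
    rw [Finset.sum_comm]
    have e2 : ∀ p ∈ S, (∑ q : K × K, ∑ p' ∈ S,
        if (p.1 * q.1 + p.2 * q.2 = 1 ∧ p'.1 * q.1 + p'.2 * q.2 = 1) then 1 else 0)
          ≤ Q + n := by
      intro p hp
      rw [Finset.sum_comm, ← Finset.add_sum_erase S _ hp]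
      apply add_le_add
      · rw [← Finset.card_filter]
        simp only [and_self]
        exact (card_line67 p (hne p hp)).le
      · calc ∑ p' ∈ S.erase p, (∑ q : K × K,
              if (p.1 * q.1 + p.2 * q.2 = 1 ∧ p'.1 * q.1 + p'.2 * q.2 = 1) then 1 else 0)
              ≤ ∑ p' ∈ S.erase p, 1 := by
                apply Finset.sum_le_sum
                intro p' hp'
                rw [← Finset.card_filter]
                exact card_inter67 p p' (Finset.ne_of_mem_erase hp').symm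
          _ = (S.erase p).card := by simp
          _ ≤ n := hSn ▸ Finset.card_erase_le
    calc ∑ p ∈ S, (∑ q : K × K, ∑ p' ∈ S,
        if (p.1 * q.1 + p.2 * q.2 = 1 ∧ p'.1 * q.1 + p'.2 * q.2 = 1) then 1 else 0)
        ≤ ∑ p ∈ S, (Q + n) := Finset.sum_le_sum e2
      _ = n * Q + n ^ 2 := by rw [Finset.sum_const, hSn, smul_eq_mul]; ring
  -- the complement of `T`
  have hsum' : ∑ q ∈ Tᶜ, g q = n * Q := by
    rw [← hsum, ← Finset.sum_add_sum_compl T g, Finset.sum_eq_zero hgT, zero_add]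
  have hsq' : ∑ q ∈ Tᶜ, (g q) ^ 2 ≤ n * Q + n ^ 2 :=
    (Finset.sum_le_sum_of_subset (Finset.subset_univ _)).trans hsq
  have hC : Tᶜ.card + n = Q ^ 2 := by
    rw [← hTn, add_comm, Finset.card_add_card_compl, Fintype.card_prod, sq]
  have hcs : (n * Q) ^ 2 ≤ Tᶜ.card * (n * Q + n ^ 2) := by
    calc (n * Q) ^ 2 = (∑ q ∈ Tᶜ, g q) ^ 2 := by rw [hsum']
      _ ≤ Tᶜ.card * ∑ q ∈ Tᶜ, (g q) ^ 2 := sq_sum_le_card_mul_sum_sq
      _ ≤ Tᶜ.card * (n * Q + n ^ 2) := Nat.mul_le_mul_left _ hsq'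
  have hnpos : 0 < n := by
    rcases Nat.eq_zero_or_pos n with h0 | h0
    · rw [h0] at h; simp at h
    · exact h0
  have hcs2 : n * Q ^ 2 ≤ Tᶜ.card * (Q + n) := by
    have : n * (n * Q ^ 2) ≤ n * (Tᶜ.card * (Q + n)) := by
      calc n * (n * Q ^ 2) = (n * Q) ^ 2 := by ring
        _ ≤ _ := hcs
        _ = _ := by ring
    exact Nat.le_of_mul_le_mul_left this hnpos
  have hfin : n * Q ^ 2 + n * (Q + n) ≤ Q ^ 2 * (Q + n) := by
    calc n * Q ^ 2 + n * (Q + n) ≤ Tᶜ.card * (Q + n) + n * (Q + n) :=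
          Nat.add_le_add_right hcs2 _
      _ = (Tᶜ.card + n) * (Q + n) := by ring
      _ = _ := by rw [hC]
  nlinarith [hfin, h]

end Pool.Agent.Helper58.ETL
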